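import Pool.Agent.U922.NS.Res

/-!
# The moments of zeta are decided by the values in `k - 1` narrow sectors

Let `Sec u N α` be the union of the `N` double sectors with half-opening `α` around the `N` lines `u e^{πij/N} ℝ`, and let
`S k u N α a b` be the integral of `|ζ(1/2 + it)|^(2k)` over the `t ∈ [a, b]` for which `ζ(1/2 + it)` lies in `Sec u N α`.  The
directions in `Sec u N α` have the proportion `2Nα/π` of all directions (`0 < α < π/(2N)`).  Let `k ≥ 1`, `N ≥ 1`, `N ≥ k - 1`.

* (1) (asymptotic formulas) For every `u ≠ 0` and every real `a`: `M_k(T) / (log T)^(k²)` tends to `a` if and only if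
  `(1/T) S k u N α 0 T / (log T)^(k²)` tends to `(2Nα/π) a`.
* (2) (the question of the problem) Hence the conjecture of Keating and Snaith holds if and only if it holds for the values of
  zeta in `k - 1` (or more) equally spaced double sectors, as narrow as one likes:
  `(1/T) S k u N α 0 T ~ (2Nα/π) a_k f_k (log T)^(k²)` for all `k ≥ 3`, where `N ≥ k - 1`, `α` and `u` may depend on `k`.
* (3) (shares, the quantitative form behind (1)) For `0 < ε ≤ 1/4`, all large `T` and all `u ≠ 0` the integral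
  `S k u N α T (2T)` is at most `2Nα/π + ε` times the `2k`-th moment over `[(1-ε)T, (2+ε)T]`, and
  `S k u N α ((1-ε)T) ((2+ε)T)` is at least `2Nα/π - ε` times the `2k`-th moment over `[T, 2T]`.
* (4) (the known case `k = 2` of the formula) `(1/T) S 2 u 1 α 0 T ~ (2α/π) (log T)^4 / (2π²)` for every double sector.

All parts are unconditional.  Proof: by the functional equation `(ζ/|ζ|)² = 1/χ` on the critical line, and the twisted moments
`∫ |ζ|^(2k) χ^(-n)` with Gaussian weights of width about `T / √(log T)` are small for all `n ≥ max (1, k - 1)`, because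
`ζ^(2k) χ^(k-n)` is holomorphic and can be integrated over the line `Re s = 4`; the only case that is not trivial there is
`n = k - 1` (`Pool.Agent.W188.QS.a_jj` of the starting library).  So the measure `|ζ|^(2k) dt` has no frequencies `≥ k - 1`
in the direction of `(ζ/|ζ|)²`.  The kernels are built from powers of `cos²`, with means over roots of unity.

`MP_112ba8_nt.FewLines` is about sums over the heights with values on `k - 1` lines; the starting hand-in `SectorMoments` gives
lower bounds of the conjectured order for single sectors.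
-/

set_option autoImplicit false

open Filter Topology Set MeasureTheory

namespace Pool.Agent.Results.MP_6a632e_nt.NarrowSectors

open Pool.Agent.U922.OL Pool.Agent.U922.NS

/-- The arithmetic factor `a_k`. -/
noncomputable def aK (k : ℕ) : ℝ :=
  ∏' p : Nat.Primes, ((1 - 1 / (p : ℝ)) ^ (k ^ 2) *
    ∑' m : ℕ, ((m + k - 1).choose m : ℝ) ^ 2 * (1 / (p : ℝ)) ^ m)

/-- The random-matrix factor `f_k`. -/
noncomputable def fK (k : ℕ) : ℝ :=
  ∏ j ∈ Finset.range k, ((j.factorial : ℝ) / ((j + k).factorial : ℝ))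

theorem result :
    -- (1) asymptotic formulas
    (∀ (k N : ℕ) (α a : ℝ) (u : ℂ), 1 ≤ k → 1 ≤ N → k ≤ N + 1 → 0 < α → α < Real.pi / (2 * N) → u ≠ 0 →
      (Tendsto (fun T : ℝ => M k T / Real.log T ^ (k ^ 2)) atTop (𝓝 a) ↔
        Tendsto (fun T : ℝ => T⁻¹ * S k u N α 0 T / Real.log T ^ (k ^ 2)) atTop
          (𝓝 (2 * N * α / Real.pi * a)))) ∧
    -- (2) the question of the problem
    (∀ (N : ℕ → ℕ) (α : ℕ → ℝ) (u : ℕ → ℂ),
      (∀ k, 3 ≤ k → k ≤ N k + 1 ∧ 0 < α k ∧ α k < Real.pi / (2 * N k) ∧ u k ≠ 0) →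
      ((∀ k : ℕ, 3 ≤ k → Tendsto (fun T : ℝ => M k T / (aK k * fK k * Real.log T ^ (k ^ 2))) atTop (𝓝 1)) ↔
        ∀ k : ℕ, 3 ≤ k → Tendsto (fun T : ℝ => T⁻¹ * S k (u k) (N k) (α k) 0 T /
          (2 * N k * α k / Real.pi * (aK k * fK k) * Real.log T ^ (k ^ 2))) atTop (𝓝 1))) ∧
    -- (3) shares
    (∀ (k N : ℕ) (α ε : ℝ), 1 ≤ k → 1 ≤ N → k ≤ N + 1 → 0 < α → α < Real.pi / (2 * N) → 0 < ε → ε ≤ 1 / 4 →
      ∀ᶠ T : ℝ in atTop, ∀ u : ℂ, u ≠ 0 →
        S k u N α T (2 * T) ≤
          (2 * N * α / Real.pi + ε) * ∫ t in ((1 - ε) * T)..((2 + ε) * T), ‖z t‖ ^ (2 * k) ∧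
        (2 * N * α / Real.pi - ε) * (∫ t in T..(2 * T), ‖z t‖ ^ (2 * k)) ≤
          S k u N α ((1 - ε) * T) ((2 + ε) * T)) ∧
    -- (4) the fourth moment
    (∀ (α : ℝ) (u : ℂ), 0 < α → α < Real.pi / 2 → u ≠ 0 →
      Tendsto (fun T : ℝ => T⁻¹ * S 2 u 1 α 0 T / Real.log T ^ 4) atTop (𝓝 (2 * α / Real.pi * (1 / (2 * Real.pi ^ 2))))) := by
  refine ⟨fun k N α a u hk hN hkN h0 h1 hu => two hk hN hkN h0 h1 hu a,
    fun N α u h => ?_, fun k N α ε hk hN hkN h0 h1 he0 he1 => ?_, fun α u h0 h1 hu => ?_⟩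
  · refine forall_congr' fun k => forall_congr' fun hk => ?_
    obtain ⟨h1, h2, h3, h4⟩ := h k hk
    exact three (by omega) (by omega) h1 h2 h3 h4 (aK k * fK k)
  · filter_upwards [shares hk hN hkN h0 h1 he0 he1] with T h u hu
    rw [S_eq hk hN hu, S_eq hk hN hu]
    exact h u hu
  · have h := (two (k := 2) (N := 1) (by norm_num) le_rfl (by norm_num) h0
      (by rw [Nat.cast_one, mul_one]; exact h1) hu (1 / (2 * Real.pi ^ 2))).1 ingham
    rw [Nat.cast_one, mul_one] at h
    exact h

end Pool.Agent.Results.MP_6a632e_nt.NarrowSectors
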