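import Pool.Agent.U196.SH.NearB

set_option autoImplicit false

/-!
# The zeros near extreme values of zeta are correlated in the normal way

For `t ∈ [T, 2T]` and a constant `H` consider the zeros of zeta with `|γ - t| ≤ H/log T` (in the mean `H/π` zeros). Call the window
*normal* (for `a < 1/2`, `ε > 0`) if

* its form factor `F(α, t) = |∑_ρ T^(α(ρ - 1/2))|² / (H/π)`, that is, on the Riemann hypothesis, the mean of `T^(iα(γ-γ'))` over the pairs
  of its zeros, obeys Montgomery's law: `|∫_0^x F(α, t) dα - (1 + x²)/2| ≤ ε` for all `x ∈ [ε, a]`;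
* two of its zeros (with multiplicity) are closer than `0.825` mean spacings;
* the number of its zeros is `H/π` with an error at most `K √(log H)` (`K` absolute).

We prove, without any hypothesis: for BOTH signs `σ` and all `H ≥ H₀(a, ε)` there are measurable sets `G(σ, T)` of points `t` of `[T, 2T]`
with `σ Z(t) > 0`, at distance at least `d / log T` from all zeros, and with normal window, such that

(1) `G` carries a positive share of `∫ V |B|²` for every product `V` of nonnegative powers of shifted values of zeta of total order at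
most two and EVERY Dirichlet polynomial `B` of length `T^θ`;
(2) `∫_G |Z|^(2k) ≥ c T (log T)^(k²)` for every real `k`, positive or negative;
(3) `G` contains points with `|Z(t)| ≥ exp(c r(T))`, and points with `|Z(t)| ≤ exp(-c r(T))`, `r(T) = √(log T / log log T)`, each of measure
at least `T^(1-η)`;
(4) for `0 < κ < 1` the points of `G` with `σ Z(t) ≥ (log T)^κ` have measure at least `T (log T)^(-κ²-η)`, that is, up to `(log T)^(2η)`
the measure of all points with this property.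

So the large and the small values of Hardy's function of both signs do not force the zeros nearby into an unusual configuration: their
number, their small gaps and their pair statistics of the frequencies `α ≤ a` are those of the mean.

Idea: the points of each sign carry a positive share of the mass of EVERY Dirichlet polynomial (`U196/SN`, `U196/SH`, sibling
`MP_112ba8_nt.PositiveAndNegativeValues`), and the windows which are not normal carry a small share of it: helper85's law of large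
numbers for the form factor (`U85/Ml`, siblings `MP_8958e8_nt.AlmostEveryWindow`, `MP_ca0a54_nt.MicroscopicWindows`) and the number
variance relative to every polynomial (`U196/CL`). What remains carries moments and extreme values (resonators and tilting
polynomials are Dirichlet polynomials).
-/

namespace Pool.Agent.Results.MP_6a632e_nt.NormalZerosAtExtremeValues

open Filter Topology MeasureTheory Complex

noncomputable section

/-- the phase `exp (i ϑ(t))`, with `ϑ(t) = arg Γ(1/4 + i t / 2) - (t / 2) log π` -/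
def phase (t : ℝ) : ℂ :=
  Gamma (1 / 4 + I * t / 2) / ‖Gamma (1 / 4 + I * t / 2)‖ * cexp (-(I * (t / 2) * Real.log Real.pi))

/-- Hardy's function `Z(t) = exp (i ϑ(t)) ζ(1/2 + i t)`, a real number; the theorem contains the proof that the product is real -/
def Z (t : ℝ) : ℝ := (phase t * riemannZeta (1 / 2 + I * t)).re

/-- the Dirichlet polynomial with the coefficients `b_1, ..., b_N` on the critical line -/
def B (N : ℕ) (b : ℕ → ℂ) (t : ℝ) : ℂ := ∑ n ∈ Finset.Icc 1 N, b n * (n : ℂ) ^ (-(1 / 2 + t * I))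

/-- the product `∏_j |ζ(1/2 + i(t + α_j))|^(2 k_j)` -/
def V {n : ℕ} (k α : Fin n → ℝ) (t : ℝ) : ℝ := ∏ j, ‖riemannZeta (1 / 2 + (t + α j : ℝ) * I)‖ ^ (2 * k j)

/-- `√(log T / log log T)` -/
def r (T : ℝ) : ℝ := Real.sqrt (Real.log T / Real.log (Real.log T))

/-- the nontrivial zeros of zeta with `|γ - t| ≤ r` -/
def zeros (t r : ℝ) : Set ℂ := {s : ℂ | riemannZeta s = 0 ∧ 0 < s.re ∧ s.re < 1 ∧ |s.im - t| ≤ r}

/-- their number, with multiplicity -/
def count (t r : ℝ) : ℕ := ∑ᶠ s ∈ zeros t r, analyticOrderNatAt riemannZeta s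

/-- the form factor of the zeros with `|γ - t| ≤ H/log T` -/
def F (T H α t : ℝ) : ℝ :=
  ‖∑ᶠ s ∈ zeros t (H / Real.log T), (analyticOrderNatAt riemannZeta s : ℂ) * (T : ℂ) ^ (α * (s - 1 / 2))‖ ^ 2 /
    (H / Real.pi)

/-- two zeros with `|γ - t| ≤ r`, counted with multiplicity, have ordinates which differ by at most `l` -/
def SmallGap (t r l : ℝ) : Prop :=
  ∃ s ∈ zeros t r, ∃ s' ∈ zeros t r, |s.im - s'.im| ≤ l ∧ (s ≠ s' ∨ 2 ≤ analyticOrderNatAt riemannZeta s)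

/-- the window `|γ - t| ≤ H/log T` is normal -/
def Normal (K a ε H T t : ℝ) : Prop :=
  (∀ x : ℝ, ε ≤ x → x ≤ a → |(∫ α in (0 : ℝ)..x, F T H α t) - (1 + x ^ 2) / 2| ≤ ε) ∧
  SmallGap t (H / Real.log T) (0.825 * (2 * Real.pi / Real.log T)) ∧
  |(count t (H / Real.log T) : ℝ) - H / Real.pi| ≤ K * Real.sqrt (Real.log H)

/-- the points of `[T, 2T]` with `σ Z > 0`, at distance at least `d / log T` from all nontrivial zeros, with normal window -/
def good (d K a ε H σ T : ℝ) : Set ℝ := {t : ℝ | T ≤ t ∧ t ≤ 2 * T ∧ 0 < σ * Z t ∧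
  (∀ s : ℂ, riemannZeta s = 0 → 0 < s.re → s.re < 1 → d / Real.log T ≤ ‖s - (1 / 2 + I * t)‖) ∧ Normal K a ε H T t}

lemma phase_norm (t : ℝ) : ‖phase t‖ = 1 := by
  unfold phase
  rw [norm_mul, norm_div, Complex.norm_real, norm_norm,
    div_self (norm_ne_zero_iff.mpr (Pool.Agent.R304.SG.gamma_ne t)), Complex.norm_exp, one_mul]
  have : (-(I * ((t : ℂ) / 2) * (Real.log Real.pi : ℂ))).re = 0 := by
    have e : -(I * ((t : ℂ) / 2) * (Real.log Real.pi : ℂ)) = ((-(t / 2 * Real.log Real.pi) : ℝ) : ℂ) * I := by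
      push_cast; ring
    rw [e]
    simp
  rw [this, Real.exp_zero]

lemma Z_real (t : ℝ) : (Z t : ℂ) = phase t * riemannZeta (1 / 2 + I * t) := Pool.Agent.R304.SG.Z_re t

lemma abs_Z (t : ℝ) : |Z t| = ‖Pool.Agent.Q97.UM.zt t‖ := by
  rw [← Real.norm_eq_abs, ← Complex.norm_real, Z_real, norm_mul, phase_norm, one_mul, mul_comm I]
  rfl

lemma zt_pos {d σ T t : ℝ} (h : t ∈ Pool.Agent.U196.SH.SS d σ T) : 0 < ‖Pool.Agent.Q97.UM.zt t‖ := by
  rw [← abs_Z, abs_pos]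
  intro h0
  have h1 : 0 < σ * Z t := h.2.2.1
  rw [h0, mul_zero] at h1
  exact lt_irrefl _ h1

/-- **The zeros near the extreme values.** -/
theorem result :
    (∀ t : ℝ, (Z t : ℂ) = phase t * riemannZeta (1 / 2 + I * t)) ∧
    ∃ d K : ℝ, 0 < d ∧ 0 < K ∧ ∀ a : ℝ, a < 1 / 2 → ∀ ε : ℝ, 0 < ε → ∃ H₀ : ℝ, 3 ≤ H₀ ∧ ∀ H : ℝ, H₀ ≤ H →
    ∃ G : ℝ → ℝ → Set ℝ, (∀ σ T : ℝ, MeasurableSet (G σ T) ∧ (σ = 1 ∨ σ = -1 → G σ T ⊆ good d K a ε H σ T)) ∧
    -- a positive share of every weighted moment of total order at most two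
    (∀ n : ℕ, ∃ θ c T₀ : ℝ, 0 < θ ∧ 0 < c ∧ ∀ T : ℝ, T₀ ≤ T → ∀ k α : Fin n → ℝ, (∀ j, 0 ≤ k j) → ∑ j, k j ≤ 1 →
      (∀ j, |α j| ≤ T / 2) → ∀ σ : ℝ, σ = 1 ∨ σ = -1 → ∀ N : ℕ, (N : ℝ) ≤ T ^ θ → ∀ b : ℕ → ℂ,
        c * (∫ t in T..(2 * T), V k α t * ‖B N b t‖ ^ 2) ≤ ∫ t in G σ T, V k α t * ‖B N b t‖ ^ 2) ∧
    -- all moments
    (∀ A : ℝ, ∃ c T₀ : ℝ, 0 < c ∧ ∀ T : ℝ, T₀ ≤ T → ∀ k : ℝ, |k| ≤ A → ∀ σ : ℝ, σ = 1 ∨ σ = -1 →
      IntegrableOn (fun t => |Z t| ^ (2 * k)) (G σ T) ∧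
      c * (T * Real.log T ^ (k ^ 2)) ≤ ∫ t in G σ T, |Z t| ^ (2 * k)) ∧
    -- extreme values of both signs
    (∀ η : ℝ, 0 < η → ∃ c T₀ : ℝ, 0 < c ∧ ∀ T : ℝ, T₀ ≤ T → ∀ σ : ℝ, σ = 1 ∨ σ = -1 →
      ENNReal.ofReal (T ^ (1 - η)) ≤ volume {t : ℝ | t ∈ G σ T ∧ Real.exp (c * r T) ≤ |Z t|} ∧
      ENNReal.ofReal (T ^ (1 - η)) ≤ volume {t : ℝ | t ∈ G σ T ∧ |Z t| ≤ Real.exp (-(c * r T))}) ∧
    -- large deviations of both signs
    (∀ κ η : ℝ, 0 < κ → κ < 1 → 0 < η → ∃ T₀ : ℝ, ∀ T : ℝ, T₀ ≤ T → ∀ σ : ℝ, σ = 1 ∨ σ = -1 →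
      ENNReal.ofReal (T * Real.log T ^ (-κ ^ 2 - η)) ≤ volume {t : ℝ | t ∈ G σ T ∧ Real.log T ^ κ ≤ σ * Z t} ∧
      volume {t : ℝ | T ≤ t ∧ t ≤ 2 * T ∧ Real.log T ^ κ ≤ σ * Z t} ≤ ENNReal.ofReal (T * Real.log T ^ (-κ ^ 2 + η))) := by
  classical
  refine ⟨Z_real, ?_⟩
  obtain ⟨d, θ₁, c₀, hd, hθ₁, -, hc₀, hm⟩ := Pool.Agent.U196.SH.mass'
  obtain ⟨K, hK, hnear⟩ := Pool.Agent.U196.SH.nearS hθ₁ hc₀ hm
  refine ⟨d, K, hd, hK, fun a ha ε hε => ?_⟩
  obtain ⟨H₀, hH₀, hnear⟩ := hnear a ha ε hε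
  refine ⟨H₀, hH₀, fun H hH => ?_⟩
  obtain ⟨θ₂, hθ₂, S, hSm, hSS, hSN, hV⟩ := hnear H hH
  have hSI : ∀ i T, S i T ⊆ Set.Icc T (2 * T) := fun i T => (hSS i T).trans (Pool.Agent.U196.SH.SS_sub d i.1 T)
  have hc2 : 0 < c₀ / 2 := by positivity
  set G : ℝ → ℝ → Set ℝ := fun σ T => if h : σ = 1 ∨ σ = -1 then S ⟨σ, h⟩ T else ∅ with hG
  have hGS : ∀ (σ : ℝ) (hσ : σ = 1 ∨ σ = -1) (T : ℝ), G σ T = S ⟨σ, hσ⟩ T := by
    intro σ hσ T
    simp only [hG]
    rw [dif_pos hσ]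
  refine ⟨G, fun σ T => ⟨?_, fun hσ => ?_⟩, ?_, ?_, ?_, ?_⟩
  · simp only [hG]
    split_ifs with h
    · exact hSm _ T
    · exact MeasurableSet.empty
  · rw [hGS σ hσ]
    intro t ht
    have h1 := hSS _ T ht
    obtain ⟨n1, n2, n3⟩ := hSN _ T t ht
    exact ⟨h1.1, h1.2.1, h1.2.2.1, h1.2.2.2, n1, n2, n3⟩
  · intro n
    obtain ⟨θ, c, C, hθ, hc, hC, h⟩ := Pool.Agent.U196.SH.shareV hθ₂ hc2 hSI hV n
    rw [Filter.eventually_atTop] at h
    obtain ⟨T₀, hT₀⟩ := h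
    refine ⟨θ, c, T₀, hθ, hc, fun T hT k α hk hk1 hα σ hσ N hN b => ?_⟩
    rw [hGS σ hσ]
    exact (hT₀ T hT k α hk hk1 hα).2 ⟨σ, hσ⟩ N hN b
  · intro A
    obtain ⟨c, hc, h⟩ := Pool.Agent.U196.SH.momentsV hd hθ₂ hc2 hSm hSS hV (le_max_right A 1)
    have hev := h.and (eventually_ge_atTop (16 : ℝ))
    rw [Filter.eventually_atTop] at hev
    obtain ⟨T₀, hT₀⟩ := hev
    refine ⟨c, T₀, hc, fun T hT k hk σ hσ => ?_⟩
    obtain ⟨h1, hT16⟩ := hT₀ T hT
    rw [hGS σ hσ]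
    simp_rw [abs_Z]
    exact ⟨(Pool.Agent.U196.SH.pow_int hd (by linarith) σ k).mono_set (hSS ⟨σ, hσ⟩ T),
      h1 k (hk.trans (le_max_left _ _)) ⟨σ, hσ⟩⟩
  · intro η hη
    obtain ⟨c, hc, h⟩ := Pool.Agent.U196.SH.extV hθ₂ hc2 hSm hSI hV hη
    rw [Filter.eventually_atTop] at h
    obtain ⟨T₀, hT₀⟩ := h
    refine ⟨c, T₀, hc, fun T hT σ hσ => ⟨?_, ?_⟩⟩
    · refine (hT₀ T hT ⟨σ, hσ⟩ 1 (Or.inl rfl)).trans (le_of_eq ?_)
      rw [hGS σ hσ]
      congr 1
      ext t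
      simp only [Set.mem_ofPred_eq]
      refine and_congr_right fun ht => ?_
      rw [abs_Z, one_mul, Real.le_log_iff_exp_le (zt_pos (hSS _ T ht))]
      rfl
    · refine (hT₀ T hT ⟨σ, hσ⟩ (-1) (Or.inr rfl)).trans (le_of_eq ?_)
      rw [hGS σ hσ]
      congr 1
      ext t
      simp only [Set.mem_ofPred_eq]
      refine and_congr_right fun ht => ?_
      rw [abs_Z, neg_one_mul, le_neg, Real.log_le_iff_le_exp (zt_pos (hSS _ T ht))]
      rfl
  · intro κ η hκ hκ1 hη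
    have hev := (Pool.Agent.U196.SH.ldV hd hθ₂ hc2 hSm hSS hV hκ.le hκ1 hη).and
      ((Pool.Agent.U196.SH.ld_up hθ₁ hc₀ hm hκ hκ1.le hη).and (eventually_ge_atTop (16 : ℝ)))
    rw [Filter.eventually_atTop] at hev
    obtain ⟨T₀, hT₀⟩ := hev
    refine ⟨T₀, fun T hT σ hσ => ?_⟩
    obtain ⟨h1, h2, hT16⟩ := hT₀ T hT
    have hL : 0 < Real.log T := Real.log_pos (by linarith)
    constructor
    · refine (h1 ⟨σ, hσ⟩).trans (le_of_eq ?_)
      rw [hGS σ hσ]
      congr 1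
      ext t
      simp only [Set.mem_ofPred_eq]
      refine and_congr_right fun ht => ?_
      have h3 : 0 < σ * Z t := (hSS _ T ht).2.2.1
      have h4 : σ * Z t = |Z t| := by
        rw [← abs_of_pos h3, abs_mul]
        rcases hσ with h | h <;> rw [h] <;> simp
      rw [h4, abs_Z]
    · refine le_trans (measure_mono ?_) h2
      intro t ht
      refine ⟨ht.1, ht.2.1, ?_⟩
      rw [← abs_Z]
      refine ht.2.2.trans ?_
      have h4 : |σ * Z t| = |Z t| := by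
        rw [abs_mul]
        rcases hσ with h | h <;> rw [h] <;> simp
      rw [← h4]
      exact le_abs_self _

end

end Pool.Agent.Results.MP_6a632e_nt.NormalZerosAtExtremeValues
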