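import Pool.Agent.U922.NS.Res

/-!
# The moments of zeta and the values in one narrow sector

Let `Sec u N α` be the union of the `N` double sectors with half-opening `α` around the `N` lines `u e^{πij/N} ℝ` (`N = 1`: one
double sector around the line `u ℝ`), and let `S k u N α a b` be the integral of `|ζ(1/2 + it)|^(2k)` over the `t ∈ [a, b]` for
which `ζ(1/2 + it)` lies in `Sec u N α`.

* (1) Let `k ≥ 1` and `0 < α < π/2`. There is a `c > 0` such that for `0 < ε ≤ 1/4`, all large `T` and all `u ≠ 0` the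
  integral `S k u 1 α ((1-ε)T) ((2+ε)T)` over the values in ONE double sector is at least `c` times the `2k`-th moment over
  `[T, 2T]`.
* (2) On the other side, if `N ≥ 1`, `N ≥ k - 1` and `α < π/(2N)`, then `S k u 1 α T (2T)` is at most `2Nα/π + ε` times the
  `2k`-th moment over `[(1-ε)T, (2+ε)T]`: a narrow sector has a small share.
* (3) Hence for each `k ≥ 1`, `0 < α < π/2` and `u ≠ 0`: `M_k(T) ≪ (log T)^(k²)` if and only if
  `(1/T) S k u 1 α 0 T ≪ (log T)^(k²)`. The upper bound of the conjectured order is known for `k ≤ 2` only.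

All parts are unconditional.  The measure `|ζ|^(2k) dt` has no frequencies `≥ k - 1` in the direction of `(ζ/|ζ|)²` (twisted
moments `∫ |ζ|^(2k) χ^(-n)` with Gaussian weights; see `NarrowSectors` for sectors around `N ≥ k - 1` lines).  Part (1) needs
trigonometric polynomials with positive mean value which have no frequencies `1, …, k` and are `≤ 0` outside of a given short
arc; they are obtained from powers of `cos²` by finite differences.

The starting hand-in `SectorMoments` gives lower bounds of the conjectured order `(log T)^(k²)` for the moments over a sector; it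
does not compare with the moment itself, whose order is not known for `k ≥ 3`.
-/

set_option autoImplicit false

open Filter Topology Set MeasureTheory

namespace Pool.Agent.Results.MP_6a632e_nt.OneNarrowSector

open Pool.Agent.U922.OL Pool.Agent.U922.NS

theorem result :
    -- (1) every double sector has a positive share
    (∀ (k : ℕ) (α : ℝ), 1 ≤ k → 0 < α → α < Real.pi / 2 → ∃ c : ℝ, 0 < c ∧
      ∀ ε : ℝ, 0 < ε → ε ≤ 1 / 4 → ∀ᶠ T : ℝ in atTop, ∀ u : ℂ, u ≠ 0 →
        c * (∫ t in T..(2 * T), ‖z t‖ ^ (2 * k)) ≤ S k u 1 α ((1 - ε) * T) ((2 + ε) * T)) ∧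
    -- (2) narrow double sectors have a small share
    (∀ (k N : ℕ) (α ε : ℝ), 1 ≤ k → 1 ≤ N → k ≤ N + 1 → 0 < α → α < Real.pi / (2 * N) → 0 < ε → ε ≤ 1 / 4 →
      ∀ᶠ T : ℝ in atTop, ∀ u : ℂ, u ≠ 0 →
        S k u 1 α T (2 * T) ≤
          (2 * N * α / Real.pi + ε) * ∫ t in ((1 - ε) * T)..((2 + ε) * T), ‖z t‖ ^ (2 * k)) ∧
    -- (3) the upper bound of the conjectured order
    (∀ (k : ℕ) (α : ℝ) (u : ℂ), 1 ≤ k → 0 < α → α < Real.pi / 2 → u ≠ 0 →
      ((∃ C : ℝ, ∀ᶠ T : ℝ in atTop, M k T ≤ C * Real.log T ^ (k ^ 2)) ↔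
        ∃ C : ℝ, ∀ᶠ T : ℝ in atTop, T⁻¹ * S k u 1 α 0 T ≤ C * Real.log T ^ (k ^ 2))) := by
  refine ⟨fun k α hk h0 h1 => ?_, fun k N α ε hk hN hkN h0 h1 he0 he1 => ?_, fun k α u hk h0 h1 hu => ?_⟩
  · obtain ⟨c, hc, h⟩ := positive hk h0 h1
    refine ⟨c, hc, fun ε he0 he1 => ?_⟩
    filter_upwards [h ε he0 he1] with T hT u hu
    rw [S_eq hk le_rfl hu]
    exact hT u hu
  · filter_upwards [shares hk hN hkN h0 h1 he0 he1, eventually_ge_atTop 0] with T h hT0 u hu
    refine le_trans ?_ (h u hu).1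
    rw [S_eq hk le_rfl hu]
    apply intervalIntegral.integral_mono_on (by linarith) (hint (gA_meas u 1 α) (gA_bd u 1 α) _ _)
      (hint (gA_meas u N α) (gA_bd u N α) _ _)
    intro t _
    exact gA_sub hk hN hu α t
  · have key : ∀ (F : ℝ → ℝ), (∃ C : ℝ, ∀ᶠ T : ℝ in atTop, T⁻¹ * F T ≤ C * Real.log T ^ (k ^ 2)) ↔
        ∃ C : ℝ, ∀ᶠ T : ℝ in atTop, F T ≤ C * Nm (k ^ 2) T := by
      intro F
      refine exists_congr fun C => ?_
      constructor
      · intro h
        filter_upwards [h, eventually_gt_atTop 0] with T h1 h2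
        rw [inv_mul_le_iff₀ h2] at h1
        refine h1.trans (le_of_eq ?_)
        unfold Nm
        ring
      · intro h
        filter_upwards [h, eventually_gt_atTop 0] with T h1 h2
        rw [inv_mul_le_iff₀ h2]
        refine h1.trans (le_of_eq ?_)
        unfold Nm
        ring
    have e1 : (∃ C : ℝ, ∀ᶠ T : ℝ in atTop, M k T ≤ C * Real.log T ^ (k ^ 2)) ↔
        ∃ C : ℝ, ∀ᶠ T : ℝ in atTop, HH k (fun _ => 1) T ≤ C * Nm (k ^ 2) T := by
      rw [← key]
      refine exists_congr fun C => eventually_congr ?_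
      filter_upwards [eventually_ge_atTop 0] with T hT
      rw [M_HH hT]
    have e2 : (∃ C : ℝ, ∀ᶠ T : ℝ in atTop, T⁻¹ * S k u 1 α 0 T ≤ C * Real.log T ^ (k ^ 2)) ↔
        ∃ C : ℝ, ∀ᶠ T : ℝ in atTop, HH k (gA u 1 α) T ≤ C * Nm (k ^ 2) T := by
      rw [← key]
      refine exists_congr fun C => eventually_congr ?_
      filter_upwards [eventually_ge_atTop 0] with T hT
      rw [S_HH hk le_rfl hu α hT]
    rw [e1, e2]
    constructor
    · rintro ⟨C, hC⟩
      refine ⟨C, ?_⟩
      filter_upwards [hC, eventually_ge_atTop 0] with T hT hT0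
      refine le_trans ?_ hT
      rw [HH_int _ hT0, HH_int _ hT0]
      apply intervalIntegral.integral_mono_on hT0 (hint (gA_meas u 1 α) (gA_bd u 1 α) _ _)
        (hint measurable_const one_bd _ _)
      intro t _
      exact mul_le_mul_of_nonneg_left (Pool.Agent.U922.NS.fA_le _ _ _) (Pool.Agent.W188.QS.Zk_nonneg k t)
    · exact upperS hk h0 h1 hu

end Pool.Agent.Results.MP_6a632e_nt.OneNarrowSector
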