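import Pool.Agent.U345.ZY2

/-!
# Short gaps between the zeros of zeta on the critical line and the moments of order `2k`

Let `k ≥ 1`. For `1 ≤ U ≤ T / log T` let `moment k T U` be the integral of `|ζ(1/2 + iy)|^(2k)` over `y`, with the Gaussian weight
`exp (-((y - T) / U)^2)`, i.e. essentially over the interval of length about `U` around `T` (`U` may be bounded, e.g. `U = 1`).

Theorem (unconditional). Let `(a_i, b_i)` be finitely many disjoint intervals of length at most one with `ζ(1/2 + i a_i) = ζ(1/2 + i b_i) = 0`,
for instance gaps between consecutive zeros on the critical line. Then, for all `T ≥ T₀` and uniformly in `U` and the intervals: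

(1) the sum over the intervals of `|ζ(1/2 + i x_i)|^(2k) exp (-((x_i - T) / U)^2) / (b_i - a_i)^(4k - 1)` is at most
`((k/2)^(4k) + ε) (log T)^(4k)` times the moment, for arbitrary points `x_i` in `[a_i, b_i]` (for instance those where the maximum is
attained);
(2) the intervals of length at most `c / log T` together carry at most the proportion `(ck/2)^(4k) + ε` of the moment.

So in the mean the maximum of `|ζ|^(2k)` in a gap of length `δ / log T` is at most of the order `δ^(4k-1)` for small `δ`, and the short
gaps contribute only `O(c^(4k))` to the moment, whatever the distribution of the zeros is: the `2k`-th moment, hence the asymptotic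
formula of Keating and Snaith, concerns the gaps which are not short. In a random matrix model the maximum of the characteristic polynomial
between two eigenvalues at the (small) distance `δ` has size `δ²` and its `2k`-th power `δ^(4k)`. The hand-in
`MP_852da8_nt.RepulsionFromZeros` has the exponent `2k` for the neighbourhoods of all zeros; here two zeros close to each other give `4k`.

Proof. Let `f(y)` be `((s - 1) ζ(s))^k` times a Gaussian and the factor `T^(iky/2)`, on the critical line. For all `j` one has
`‖f^(j)‖ ≤ ((k/2 + o(1)) log T)^j ‖f‖` in the mean square, by convexity and the functional equation, without any information on the size of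
the moment. In an interval `[a, b]` with zeros of order `k` at both ends every real part `Re (u f)` has `2k` zeros; by Rolle's theorem
all its derivatives of order less than `2k` have a zero there. Hence `|f(x)|² ≤ (b - a)^(4k-1) ∫ |f^(2k)|²` over `[a, b]`, and the intervals
are disjoint.
-/

set_option autoImplicit false

namespace Pool.Agent.Results.MP_6a632e_nt.ShortGaps

open MeasureTheory Filter Topology

/-- the point `1/2 + iy` -/
noncomputable def point (y : ℝ) : ℂ := ((1 / 2 : ℝ) : ℂ) + y * Complex.I

/-- the function `|ζ(1/2 + iy)|^(2k) exp (-((y - T) / U)^2)` -/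
noncomputable def integrand (k : ℕ) (T U y : ℝ) : ℝ :=
  ‖riemannZeta (point y)‖ ^ (2 * k) * Real.exp (-((y - T) / U) ^ 2)

/-- the moment `∫ |ζ(1/2 + iy)|^(2k) exp (-((y - T) / U)^2) dy` -/
noncomputable def moment (k : ℕ) (T U : ℝ) : ℝ := ∫ y : ℝ, integrand k T U y

/-- disjoint intervals of length at most one between zeros of zeta on the critical line (other zeros may lie between) -/
def Gaps {n : ℕ} (a b : Fin n → ℝ) : Prop :=
  (∀ i, a i < b i ∧ b i ≤ a i + 1 ∧ riemannZeta (point (a i)) = 0 ∧ riemannZeta (point (b i)) = 0) ∧
    Pairwise fun i j => Disjoint (Set.Ioo (a i) (b i)) (Set.Ioo (a j) (b j))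

/-- Let `k ≥ 1`, `c > 0` and `ε > 0`. There is `T₀` such that for all `T ≥ T₀`, all `U` with `1 ≤ U ≤ T / log T` and all finite
families of disjoint intervals of length at most one between zeros on the critical line:
(1) the sum of `integrand k T U (x i) / (b i - a i) ^ (4 k - 1)` is at most `((k/2)^(4k) + ε) (log T)^(4k)` times the moment, for
arbitrary `x i` in `[a i, b i]`;
(2) if all lengths are at most `c / log T`, the integral over the intervals is at most `(ck/2)^(4k) + ε` times the moment. -/
theorem result (k : ℕ) (hk : 1 ≤ k) (c ε : ℝ) (hc : 0 < c) (hε : 0 < ε) :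
    ∃ T₀ : ℝ, ∀ T : ℝ, T₀ ≤ T → ∀ U : ℝ, 1 ≤ U → U ≤ T / Real.log T →
      ∀ (n : ℕ) (a b : Fin n → ℝ), Gaps a b →
        (∀ x : Fin n → ℝ, (∀ i, a i ≤ x i ∧ x i ≤ b i) →
          ∑ i, integrand k T U (x i) / (b i - a i) ^ (4 * k - 1) ≤
            (((k : ℝ) / 2) ^ (4 * k) + ε) * Real.log T ^ (4 * k) * moment k T U) ∧
        ((∀ i, b i - a i ≤ c / Real.log T) →
          ∑ i, ∫ y in (a i)..(b i), integrand k T U y ≤
            ((c * k / 2) ^ (4 * k) + ε) * moment k T U) := by
  set ε' := min ε (ε / c ^ (4 * k)) with hε'
  have hε'0 : 0 < ε' := lt_min hε (by positivity)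
  obtain ⟨T1, hT1⟩ := eventually_atTop.mp (U345Z.gapZ k hk hε'0)
  refine ⟨max 3 T1, fun T hT U hU1 hU2 n a b hab => ?_⟩
  have hA : Q97.MM.Adm T U := ⟨le_of_max_le_left hT, hU1, hU2⟩
  obtain ⟨hM, h1⟩ := hT1 T (le_of_max_le_right hT) U hA
  have hL := hA.log
  have hL0 : 0 < Real.log T := by linarith
  have hM' : 0 < moment k T U := hM
  have key : ∀ x : Fin n → ℝ, (∀ i, a i ≤ x i ∧ x i ≤ b i) →
      ∑ i, integrand k T U (x i) / (b i - a i) ^ (4 * k - 1) ≤
        (((k : ℝ) / 2) ^ (4 * k) + ε') * Real.log T ^ (4 * k) * moment k T U := by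
    intro x hx
    exact h1 n a b x (fun i => ⟨(hab.1 i).1, (hab.1 i).2.1, (hx i).1, (hx i).2, (hab.1 i).2.2.1,
      (hab.1 i).2.2.2⟩) hab.2
  refine ⟨fun x hx => (key x hx).trans ?_, fun hlen => ?_⟩
  · have : ε' ≤ ε := min_le_left _ _
    gcongr
  · have hcont : Continuous (integrand k T U) := U345Z.zq_cont k T U
    have hmax : ∀ i, ∃ x : ℝ, (a i ≤ x ∧ x ≤ b i) ∧ ∀ y ∈ Set.Icc (a i) (b i),
        integrand k T U y ≤ integrand k T U x := by
      intro i
      obtain ⟨x, hx, hx'⟩ := isCompact_Icc.exists_isMaxOn (Set.nonempty_Icc.2 (hab.1 i).1.le)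
        hcont.continuousOn
      exact ⟨x, hx, fun y hy => hx' hy⟩
    choose x hx hx' using hmax
    have h2 := key x hx
    have h3 : ∀ i, ∫ y in (a i)..(b i), integrand k T U y ≤
        (c / Real.log T) ^ (4 * k) * (integrand k T U (x i) / (b i - a i) ^ (4 * k - 1)) := by
      intro i
      have hba : 0 < b i - a i := by linarith [(hab.1 i).1]
      have h4 : ∫ y in (a i)..(b i), integrand k T U y ≤ ∫ _y in (a i)..(b i), integrand k T U (x i) :=
        intervalIntegral.integral_mono_on (hab.1 i).1.le (hcont.intervalIntegrable _ _)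
          intervalIntegrable_const fun y hy => hx' i y hy
      rw [intervalIntegral.integral_const, smul_eq_mul] at h4
      have hq : 0 ≤ integrand k T U (x i) := by
        unfold integrand
        positivity
      have h5 : (b i - a i) * integrand k T U (x i) =
          (b i - a i) ^ (4 * k) * (integrand k T U (x i) / (b i - a i) ^ (4 * k - 1)) := by
        have e : 4 * k = (4 * k - 1) + 1 := by omega
        have e2 : (b i - a i) ^ (4 * k) = (b i - a i) ^ (4 * k - 1) * (b i - a i) := by
          conv_lhs => rw [e]
          rw [pow_succ]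
        rw [e2]
        field_simp
      rw [h5] at h4
      refine h4.trans ?_
      apply mul_le_mul_of_nonneg_right _ (by positivity)
      exact pow_le_pow_left₀ hba.le (hlen i) _
    refine (Finset.sum_le_sum fun i _ => h3 i).trans ?_
    rw [← Finset.mul_sum]
    have h6 := mul_le_mul_of_nonneg_left h2 (show 0 ≤ (c / Real.log T) ^ (4 * k) by positivity)
    refine h6.trans ?_
    have h7 : (c / Real.log T) ^ (4 * k) * ((((k : ℝ) / 2) ^ (4 * k) + ε') * Real.log T ^ (4 * k) *
        moment k T U) = ((c * k / 2) ^ (4 * k) + c ^ (4 * k) * ε') * moment k T U := by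
      rw [div_pow, mul_div_assoc, mul_pow]
      field_simp
    rw [h7]
    have h8 : c ^ (4 * k) * ε' ≤ ε := by
      have : ε' ≤ ε / c ^ (4 * k) := min_le_right _ _
      rw [le_div_iff₀ (by positivity)] at this
      linarith
    gcongr

end Pool.Agent.Results.MP_6a632e_nt.ShortGaps
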